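import Mathlib

/-!
# The First-Fit anti-Ramsey number is at most `(τ + 1) k / 2`

Order the vertices `v 0, v 1, ...` of a minimum vertex cover, assign every edge of `H` to a vertex of
the cover on it, and sort the edges by the index of that vertex. Builder realises the colours
`1, 2, ...` one after the other: for the colour `a + 1` she plays the `a`-th edge and one pendant edge at
every later cover vertex not on that edge. The order of the cover or the reversed order is good enough.
-/

set_option autoImplicit false

namespace Pool.Agent.Results.MP_071c0d_co.HalfBound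

/-- The First-Fit rule: `L` lists the edges already present together with their colours; the new edge
`e` gets the least positive integer that is not the colour of an edge of `L` sharing a vertex with `e`. -/
noncomputable def firstFit (L : List (Sym2 ℕ × ℕ)) (e : Sym2 ℕ) : ℕ :=
  sInf {c : ℕ | 1 ≤ c ∧ ∀ p ∈ L, (∃ x, x ∈ e ∧ x ∈ p.1) → p.2 ≠ c}

/-- The coloured graph (list of edges with colours) after Builder has added the edges of the list, where
the last entry of the list is the edge added first and the head is the edge added last. -/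
noncomputable def play : List (Sym2 ℕ) → List (Sym2 ℕ × ℕ)
  | [] => []
  | e :: es => (e, firstFit (play es) e) :: play es

/-- The coloured graph `L` contains a rainbow copy of `H`. -/
def HasRainbowCopy {V : Type*} (H : SimpleGraph V) (L : List (Sym2 ℕ × ℕ)) : Prop :=
  ∃ (f : V ↪ ℕ) (c : Sym2 V → ℕ), (∀ e ∈ H.edgeSet, (e.map f, c e) ∈ L) ∧ Set.InjOn c H.edgeSet

/-- The First-Fit anti-Ramsey number: the least length of a sequence of distinct edges (pairs of distinct
natural numbers) such that the First-Fit coloured graph contains a rainbow copy of `H`. -/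
noncomputable def arFF {V : Type*} (H : SimpleGraph V) : ℕ∞ :=
  ⨅ (es : List (Sym2 ℕ)) (_ : es.Nodup ∧ (∀ e ∈ es, ¬ e.IsDiag) ∧ HasRainbowCopy H (play es)),
    (es.length : ℕ∞)

theorem firstFit_eq {L : List (Sym2 ℕ × ℕ)} {e : Sym2 ℕ} {c : ℕ} (hc : 1 ≤ c)
    (h1 : ∀ p ∈ L, (∃ x, x ∈ e ∧ x ∈ p.1) → p.2 ≠ c)
    (h2 : ∀ b, 1 ≤ b → b < c → ∃ p ∈ L, (∃ x, x ∈ e ∧ x ∈ p.1) ∧ p.2 = b) :
    firstFit L e = c := by
  unfold firstFit
  apply le_antisymm
  · exact Nat.sInf_le ⟨hc, h1⟩
  · refine le_csInf ⟨c, hc, h1⟩ ?_
    rintro b ⟨hb1, hb2⟩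
    by_contra hlt
    obtain ⟨p, hp, hpe, hpb⟩ := h2 b hb1 (not_le.1 hlt)
    exact hb2 p hp hpe hpb

/-- Playing a batch of pairwise disjoint edges that all get the colour `c`. -/
theorem play_batch (es : List (Sym2 ℕ)) (c : ℕ) (hc : 1 ≤ c) (F : List (Sym2 ℕ))
    (hF : F.Pairwise fun e e' => ¬ ∃ x, x ∈ e ∧ x ∈ e')
    (h1 : ∀ e ∈ F, ∀ p ∈ play es, (∃ x, x ∈ e ∧ x ∈ p.1) → p.2 ≠ c)
    (h2 : ∀ e ∈ F, ∀ b, 1 ≤ b → b < c → ∃ p ∈ play es, (∃ x, x ∈ e ∧ x ∈ p.1) ∧ p.2 = b) :
    play (F ++ es) = F.map (fun e => (e, c)) ++ play es := by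
  induction F with
  | nil => simp
  | cons e F ih =>
    rw [List.pairwise_cons] at hF
    have ih' := ih hF.2 (fun e' he' => h1 e' (List.mem_cons_of_mem _ he'))
      (fun e' he' => h2 e' (List.mem_cons_of_mem _ he'))
    have : firstFit (play (F ++ es)) e = c := by
      rw [ih']
      refine firstFit_eq hc ?_ ?_
      · intro p hp hx
        rw [List.mem_append] at hp
        rcases hp with hp | hp
        · rw [List.mem_map] at hp
          obtain ⟨e', he', rfl⟩ := hp
          exact absurd hx (hF.1 e' he')
        · exact h1 e (List.mem_cons_self ..) p hp hx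
      · intro b hb1 hb2
        obtain ⟨p, hp, hpe⟩ := h2 e (List.mem_cons_self ..) b hb1 hb2
        exact ⟨p, List.mem_append_right _ hp, hpe⟩
    simp only [List.cons_append, play, List.map_cons]
    rw [this, ih']

section construction

variable {V : Type*} {k t : ℕ} (φ : V ↪ ℕ) (n : ℕ) (v : Fin t → V) (ea : ℕ → Sym2 V) (J : ℕ → Fin t)

/-- The leaf used for the pendant edge of colour `a + 1` at the `j`-th cover vertex. -/
def leaf (a : ℕ) (j : Fin t) : ℕ := n + (a * t + j)

theorem leaf_inj {a b : ℕ} {i j : Fin t} (h : leaf n a i = leaf n b j) : a = b ∧ i = j := by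
  unfold leaf at h
  have h' : a * t + (i : ℕ) = b * t + (j : ℕ) := by omega
  have ht : 0 < t := lt_of_le_of_lt (Nat.zero_le _) i.2
  have h1 : (a * t + (i : ℕ)) / t = a := by
    rw [mul_comm, Nat.mul_add_div ht, Nat.div_eq_of_lt i.2, add_zero]
  have h2 : (b * t + (j : ℕ)) / t = b := by
    rw [mul_comm, Nat.mul_add_div ht, Nat.div_eq_of_lt j.2, add_zero]
  have hab : a = b := by rw [← h1, ← h2, h']
  subst hab
  exact ⟨rfl, Fin.ext (by omega)⟩

open Classical in
/-- The indices of cover vertices that get a pendant edge of colour `a + 1`. -/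
noncomputable def idx (a : ℕ) : List (Fin t) :=
  (List.finRange t).filter fun j => J a < j ∧ v j ∉ ea a

theorem mem_idx {a : ℕ} {j : Fin t} : j ∈ idx v ea J a ↔ J a < j ∧ v j ∉ ea a := by
  classical
  simp [idx]

/-- The batch of edges of colour `a + 1`. -/
noncomputable def batch (a : ℕ) : List (Sym2 ℕ) :=
  (ea a).map φ :: (idx v ea J a).map fun j => s(φ (v j), leaf n a j)

/-- All edges for the colours `1, ..., a`, last first. -/
noncomputable def all : ℕ → List (Sym2 ℕ)
  | 0 => []
  | a + 1 => batch φ n v ea J a ++ all a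

theorem length_idx (a : ℕ) : (idx v ea J a).length + 1 ≤ t - (J a : ℕ) := by
  classical
  have hnd : (idx v ea J a).Nodup := (List.nodup_finRange t).filter _
  have hcard : (idx v ea J a).length = (idx v ea J a).toFinset.card := by
    rw [List.toFinset_card_of_nodup hnd]
  have hsub : (idx v ea J a).toFinset ⊆ Finset.Ioi (J a) := by
    intro j hj
    rw [List.mem_toFinset, mem_idx] at hj
    exact Finset.mem_Ioi.2 hj.1
  have := Finset.card_le_card hsub
  rw [Fin.card_Ioi] at this
  have := (J a).2
  omega

theorem length_all (a : ℕ) :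
    (all φ n v ea J a).length ≤ ∑ i ∈ Finset.range a, (t - (J i : ℕ)) := by
  induction a with
  | zero => simp [all]
  | succ a ih =>
    rw [Finset.sum_range_succ, all, List.length_append, batch, List.length_cons, List.length_map]
    have := length_idx v ea J a
    omega

end construction

/-- The main construction. -/
theorem exists_play {V : Type*} [Fintype V] (H : SimpleGraph V) {t k : ℕ} (v : Fin t → V)
    (hv : Function.Injective v) (e0 : Fin k → Sym2 V) (he0 : Function.Injective e0)
    (hH : ∀ e, e ∈ H.edgeSet ↔ ∃ a, e0 a = e) (J0 : Fin k → Fin t) (hJ : ∀ a, v (J0 a) ∈ e0 a) :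
    ∃ es : List (Sym2 ℕ), (es.Nodup ∧ (∀ e ∈ es, ¬ e.IsDiag) ∧ HasRainbowCopy H (play es)) ∧
      es.length ≤ ∑ a : Fin k, (t - (J0 a : ℕ)) := by
  classical
  rcases Nat.eq_zero_or_pos k with hk | hk
  · subst hk
    refine ⟨[], ⟨by simp, by simp, ?_⟩, by simp⟩
    refine ⟨⟨fun x => (Fintype.equivFin V x : ℕ), fun x y h => ?_⟩, fun _ => 0, ?_, ?_⟩
    · exact (Fintype.equivFin V).injective (Fin.ext h)
    · intro e he
      obtain ⟨a, -⟩ := (hH e).1 he
      exact a.elim0
    · intro e he
      obtain ⟨a, -⟩ := (hH e).1 he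
      exact a.elim0
  -- sort the edges
  set σ := Tuple.sort J0 with hσ
  have hmono : Monotone (J0 ∘ σ) := Tuple.monotone_sort J0
  -- extend to natural numbers
  set g : ℕ → Fin k := fun a => ⟨min a (k - 1), by omega⟩ with hg
  have hgm : Monotone g := by
    intro a b hab
    simp only [hg, Fin.mk_le_mk]
    omega
  have hgi : ∀ a b, a < k → b < k → g a = g b → a = b := by
    intro a b ha hb h
    simp only [hg, Fin.mk.injEq] at h
    omega
  set ea : ℕ → Sym2 V := fun a => e0 (σ (g a)) with hea
  set J : ℕ → Fin t := fun a => J0 (σ (g a)) with hJdef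
  have hJm : ∀ a b, a ≤ b → J a ≤ J b := fun a b hab => hmono (hgm hab)
  have hJe : ∀ a, v (J a) ∈ ea a := fun a => hJ _
  have heH : ∀ a, ea a ∈ H.edgeSet := fun a => (hH _).2 ⟨_, rfl⟩
  have heinj : ∀ a b, a < k → b < k → ea a = ea b → a = b := by
    intro a b ha hb h
    exact hgi a b ha hb (σ.injective (he0 h))
  set n := Fintype.card V with hn
  set φ : V ↪ ℕ := ⟨fun x => (Fintype.equivFin V x : ℕ), fun x y h =>
    (Fintype.equivFin V).injective (Fin.ext h)⟩ with hφ
  have hφn : ∀ x, φ x < n := fun x => (Fintype.equivFin V x).2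
  -- membership in `batch`
  have hmem : ∀ a e, e ∈ batch φ n v ea J a ↔
      e = (ea a).map φ ∨ ∃ j, J a < j ∧ v j ∉ ea a ∧ e = s(φ (v j), leaf n a j) := by
    intro a e
    simp only [batch, List.mem_cons, List.mem_map, mem_idx]
    constructor
    · rintro (h | ⟨j, ⟨h1, h2⟩, rfl⟩)
      · exact Or.inl h
      · exact Or.inr ⟨j, h1, h2, rfl⟩
    · rintro (h | ⟨j, h1, h2, rfl⟩)
      · exact Or.inl h
      · exact Or.inr ⟨j, ⟨h1, h2⟩, rfl⟩
  -- vertices on images of edges are small
  have hsmall : ∀ (e : Sym2 V) (x : ℕ), x ∈ e.map φ → ∃ y ∈ e, φ y = x := by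
    intro e x hx
    rw [Sym2.mem_map] at hx
    exact hx
  have hleaf_ge : ∀ a (j : Fin t), n ≤ leaf n a j := fun a j => Nat.le_add_right _ _
  -- the invariant
  have key : ∀ a, a ≤ k → (∀ p, p ∈ play (all φ n v ea J a) ↔
      ∃ b < a, p.2 = b + 1 ∧ p.1 ∈ batch φ n v ea J b) := by
    intro a
    induction a with
    | zero => intro _ p; simp [all, play]
    | succ a ih =>
      intro hak p
      have ih' := ih (by omega)
      have hb : play (batch φ n v ea J a ++ all φ n v ea J a) =
          (batch φ n v ea J a).map (fun e => (e, a + 1)) ++ play (all φ n v ea J a) := by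
        refine play_batch _ (a + 1) (by omega) _ ?_ ?_ ?_
        · -- pairwise disjoint
          rw [batch, List.pairwise_cons]
          constructor
          · intro e' he'
            rw [List.mem_map] at he'
            obtain ⟨j, hj, rfl⟩ := he'
            rw [mem_idx] at hj
            rintro ⟨x, hx1, hx2⟩
            obtain ⟨y, hy, rfl⟩ := hsmall _ _ hx1
            rw [Sym2.mem_iff] at hx2
            rcases hx2 with h | h
            · exact hj.2 (φ.injective h ▸ hy)
            · have := hφn y
              have := hleaf_ge a j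
              omega
          · rw [List.pairwise_map]
            have hnd : (idx v ea J a).Nodup := (List.nodup_finRange t).filter _
            refine List.Pairwise.imp ?_ hnd
            intro i j hij
            rintro ⟨x, hx1, hx2⟩
            rw [Sym2.mem_iff] at hx1 hx2
            have h3 := hφn (v i)
            have h4 := hφn (v j)
            have h5 := hleaf_ge a i
            have h6 := hleaf_ge a j
            rcases hx1 with h | h <;> rcases hx2 with h' | h'
            · exact hij (hv (φ.injective (h ▸ h')))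
            · omega
            · omega
            · exact hij (leaf_inj n (h ▸ h')).2
        · -- the colour `a + 1` is new
          intro e _ p hp _
          obtain ⟨b, hb, hb', -⟩ := (ih' p).1 hp
          omega
        · -- all smaller colours are seen
          have hsee : ∀ j : Fin t, J a ≤ j → ∀ b < a,
              ∃ p ∈ play (all φ n v ea J a), φ (v j) ∈ p.1 ∧ p.2 = b + 1 := by
            intro j hj b hb
            by_cases hin : v j ∈ ea b
            · refine ⟨((ea b).map φ, b + 1), (ih' _).2 ⟨b, hb, rfl, (hmem _ _).2 (Or.inl rfl)⟩, ?_,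
                rfl⟩
              exact Sym2.mem_map.2 ⟨_, hin, rfl⟩
            · have hlt : J b < j := by
                refine lt_of_le_of_ne ((hJm b a hb.le).trans hj) ?_
                rintro rfl
                exact hin (hJe b)
              refine ⟨(s(φ (v j), leaf n b j), b + 1),
                (ih' _).2 ⟨b, hb, rfl, (hmem _ _).2 (Or.inr ⟨j, hlt, hin, rfl⟩)⟩, ?_, rfl⟩
              exact Sym2.mem_mk_left _ _
          intro e he b hb1 hb2
          rw [hmem] at he
          rcases he with rfl | ⟨j, hj, -, rfl⟩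
          · obtain ⟨p, hp, hp1, hp2⟩ := hsee (J a) le_rfl (b - 1) (by omega)
            exact ⟨p, hp, ⟨_, Sym2.mem_map.2 ⟨_, hJe a, rfl⟩, hp1⟩, by omega⟩
          · obtain ⟨p, hp, hp1, hp2⟩ := hsee j hj.le (b - 1) (by omega)
            exact ⟨p, hp, ⟨_, Sym2.mem_mk_left _ _, hp1⟩, by omega⟩
      rw [all, hb, List.mem_append, List.mem_map, ih']
      constructor
      · rintro (⟨e, he, rfl⟩ | ⟨b, hb, hb'⟩)
        · exact ⟨a, by omega, rfl, he⟩
        · exact ⟨b, by omega, hb'⟩
      · rintro ⟨b, hb, hb', hb''⟩
        rcases Nat.lt_succ_iff_lt_or_eq.1 hb with h | rfl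
        · exact Or.inr ⟨b, h, hb', hb''⟩
        · exact Or.inl ⟨p.1, hb'', by rw [← hb']⟩
  have hallmem : ∀ a, a ≤ k → ∀ e, e ∈ all φ n v ea J a → ∃ b < a, e ∈ batch φ n v ea J b := by
    intro a
    induction a with
    | zero => intro _ e he; simp [all] at he
    | succ a ih =>
      intro hak e he
      rw [all, List.mem_append] at he
      rcases he with he | he
      · exact ⟨a, by omega, he⟩
      · obtain ⟨b, hb, hb'⟩ := ih (by omega) e he
        exact ⟨b, by omega, hb'⟩
  -- batches are disjoint
  have hdisj : ∀ a b, a < k → b < k → a ≠ b → ∀ e, e ∈ batch φ n v ea J a →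
      e ∉ batch φ n v ea J b := by
    intro a b ha hb hab e he he'
    rw [hmem] at he he'
    rcases he with rfl | ⟨j, hj, -, rfl⟩ <;> rcases he' with h | ⟨j', hj', -, h⟩
    · exact hab (heinj a b ha hb (Sym2.map.injective φ.injective h))
    · have : leaf n b j' ∈ (ea a).map φ := by rw [h]; exact Sym2.mem_mk_right _ _
      obtain ⟨y, -, hy⟩ := hsmall _ _ this
      have := hφn y
      have := hleaf_ge b j'
      omega
    · have : leaf n a j ∈ (ea b).map φ := by rw [← h]; exact Sym2.mem_mk_right _ _
      obtain ⟨y, -, hy⟩ := hsmall _ _ this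
      have := hφn y
      have := hleaf_ge a j
      omega
    · have : leaf n a j ∈ s(φ (v j'), leaf n b j') := by rw [← h]; exact Sym2.mem_mk_right _ _
      rw [Sym2.mem_iff] at this
      rcases this with h1 | h1
      · have := hφn (v j')
        have := hleaf_ge a j
        omega
      · exact hab (leaf_inj n h1).1
  have hbatchnd : ∀ a, (batch φ n v ea J a).Nodup := by
    intro a
    rw [batch, List.nodup_cons]
    constructor
    · rw [List.mem_map]
      rintro ⟨j, -, hj⟩
      have : leaf n a j ∈ (ea a).map φ := by rw [← hj]; exact Sym2.mem_mk_right _ _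
      obtain ⟨y, -, hy⟩ := hsmall _ _ this
      have := hφn y
      have := hleaf_ge a j
      omega
    · refine List.Nodup.map_on ?_ ((List.nodup_finRange t).filter _)
      intro i _ j _ hij
      have : leaf n a i ∈ s(φ (v j), leaf n a j) := by rw [← hij]; exact Sym2.mem_mk_right _ _
      rw [Sym2.mem_iff] at this
      rcases this with h1 | h1
      · have := hφn (v j)
        have := hleaf_ge a i
        omega
      · exact (leaf_inj n h1).2
  refine ⟨all φ n v ea J k, ⟨?_, ?_, ?_⟩, ?_⟩
  · -- no repetition
    have : ∀ a, a ≤ k → (all φ n v ea J a).Nodup := by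
      intro a
      induction a with
      | zero => intro _; simp [all]
      | succ a ih =>
        intro hak
        rw [all, List.nodup_append]
        refine ⟨hbatchnd a, ih (by omega), ?_⟩
        intro e he e' he' hee
        subst hee
        obtain ⟨b, hb, hb'⟩ := hallmem a (by omega) e he'
        exact hdisj a b (by omega) (by omega) (by omega) e he hb'
    exact this k le_rfl
  · intro e he
    obtain ⟨b, -, hb⟩ := hallmem k le_rfl e he
    rw [hmem] at hb
    rcases hb with rfl | ⟨j, -, -, rfl⟩
    · rw [Sym2.isDiag_map φ.injective]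
      exact H.not_isDiag_of_mem_edgeSet (heH b)
    · rw [Sym2.mk_isDiag_iff]
      intro h
      have := hφn (v j)
      have := hleaf_ge b j
      omega
  · -- the rainbow copy
    have hex : ∀ e ∈ H.edgeSet, ∃ a, a < k ∧ ea a = e := by
      intro e he
      obtain ⟨a, rfl⟩ := (hH e).1 he
      refine ⟨(σ.symm a : Fin k), (σ.symm a).2, ?_⟩
      have : g (σ.symm a : Fin k) = σ.symm a := by
        apply Fin.ext
        simp only [hg]
        have := (σ.symm a).2
        omega
      simp only [hea, this, Equiv.apply_symm_apply]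
    choose! A hA1 hA2 using hex
    refine ⟨φ, fun e => A e + 1, ?_, ?_⟩
    · intro e he
      rw [key k le_rfl]
      refine ⟨A e, hA1 e he, rfl, (hmem _ _).2 (Or.inl ?_)⟩
      rw [hA2 e he]
    · intro e he e' he' h
      have : A e = A e' := by simpa using h
      rw [← hA2 e he, ← hA2 e' he', this]
  · refine (length_all φ n v ea J k).trans (le_of_eq ?_)
    rw [← Equiv.sum_comp σ (fun a => t - (J0 a : ℕ)), Finset.sum_range]
    refine Finset.sum_congr rfl fun a _ => ?_
    have : g a = a := by
      apply Fin.ext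
      simp only [hg]
      have := a.2
      omega
    simp only [hJdef, this]

/-- **Halving the upper bound for First-Fit anti-Ramsey numbers.** For every finite graph `H` with at least
one edge, `AR_FF(H) ≤ (τ(H) + 1) k / 2`, where `τ(H)` is the vertex cover number and `k` the number of
edges of `H`. -/
theorem result {V : Type*} [Fintype V] (H : SimpleGraph V) (_hH : H.edgeSet.Nonempty) :
    2 * arFF H ≤ (H.vertexCoverNum + 1) * H.edgeSet.encard := by
  classical
  obtain ⟨s, hs, hcov⟩ := H.vertexCoverNum_exists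
  have hfin : s.Finite := Set.toFinite s
  obtain ⟨t, ht⟩ : ∃ t : ℕ, s.encard = t := ⟨hfin.toFinset.card, hfin.encard_eq_coe_toFinset_card⟩
  obtain ⟨v, hvinj, hvr⟩ : ∃ v : Fin t → V, Function.Injective v ∧ Set.range v = s := by
    have hc : Fintype.card s = t := by
      have := ht
      rw [Set.encard_eq_coe_toFinset_card, Set.toFinset_card] at this
      exact_mod_cast this
    let e := (Fintype.equivFinOfCardEq hc).symm
    refine ⟨fun i => (e i : V), fun i j h => e.injective (Subtype.ext h), ?_⟩
    ext x
    constructor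
    · rintro ⟨i, rfl⟩
      exact (e i).2
    · intro hx
      exact ⟨e.symm ⟨x, hx⟩, by simp⟩
  obtain ⟨k, hk⟩ : ∃ k : ℕ, H.edgeSet.encard = k :=
    ⟨_, (Set.toFinite H.edgeSet).encard_eq_coe_toFinset_card⟩
  obtain ⟨e0, he0, hr0⟩ : ∃ e0 : Fin k → Sym2 V, Function.Injective e0 ∧
      ∀ e, e ∈ H.edgeSet ↔ ∃ a, e0 a = e := by
    have hc : Fintype.card H.edgeSet = k := by
      have := hk
      rw [Set.encard_eq_coe_toFinset_card, Set.toFinset_card] at this
      exact_mod_cast this
    let e := (Fintype.equivFinOfCardEq hc).symm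
    refine ⟨fun i => (e i : Sym2 V), fun i j h => e.injective (Subtype.ext h), ?_⟩
    intro x
    constructor
    · intro hx
      exact ⟨e.symm ⟨x, hx⟩, by simp⟩
    · rintro ⟨i, rfl⟩
      exact (e i).2
  have hJex : ∀ a : Fin k, ∃ j : Fin t, v j ∈ e0 a := by
    intro a
    have ha : e0 a ∈ H.edgeSet := (hr0 _).2 ⟨a, rfl⟩
    induction h : e0 a using Sym2.ind with
    | _ x y =>
      rw [h] at ha
      have hadj : H.Adj x y := ha
      rcases hcov hadj with hx | hy
      · rw [← hvr] at hx
        obtain ⟨j, hj⟩ := hx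
        exact ⟨j, by rw [hj]; exact Sym2.mem_mk_left _ _⟩
      · rw [← hvr] at hy
        obtain ⟨j, hj⟩ := hy
        exact ⟨j, by rw [hj]; exact Sym2.mem_mk_right _ _⟩
  choose J0 hJ0 using hJex
  obtain ⟨es1, hes1, hl1⟩ := exists_play H v hvinj e0 he0 hr0 J0 hJ0
  obtain ⟨es2, hes2, hl2⟩ := exists_play H (fun i => v i.rev)
    (fun i j h => Fin.rev_injective (hvinj h)) e0 he0 hr0 (fun a => (J0 a).rev)
    (fun a => by rw [Fin.rev_rev]; exact hJ0 a)
  have hsum : (∑ a : Fin k, (t - (J0 a : ℕ))) + (∑ a : Fin k, (t - ((J0 a).rev : ℕ)))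
      = (t + 1) * k := by
    rw [← Finset.sum_add_distrib]
    have : ∀ a ∈ (Finset.univ : Finset (Fin k)),
        (t - (J0 a : ℕ)) + (t - ((J0 a).rev : ℕ)) = t + 1 := by
      intro a _
      have h1 := (J0 a).2
      rw [Fin.val_rev]
      omega
    rw [Finset.sum_congr rfl this]
    simp [mul_comm]
  have h1 : arFF H ≤ es1.length := iInf₂_le es1 hes1
  have h2 : arFF H ≤ es2.length := iInf₂_le es2 hes2
  rw [← hs, ht, hk, two_mul]
  calc arFF H + arFF H ≤ (es1.length : ℕ∞) + es2.length := add_le_add h1 h2
    _ ≤ (((t + 1) * k : ℕ) : ℕ∞) := by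
        rw [← hsum]
        exact_mod_cast add_le_add hl1 hl2
    _ = ((t : ℕ∞) + 1) * k := by push_cast; ring

end Pool.Agent.Results.MP_071c0d_co.HalfBound
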